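import Pool.Agent.J6H9.EW.Stm

/-!
# EW-HLF: the halves exist
-/

set_option autoImplicit false

namespace Pool.Agent.J6H14.EW

open Finset Pool.Agent.J6H9.EW

theorem halves (g : ℕ → ℕ) (hg : Function.Injective g) (P : Finset ℕ) (m : ℕ) (h : P.card = 2 * m) :
    ∃ (L H : Finset ℕ) (p : ℕ), L ⊆ P ∧ H ⊆ P ∧ L.card = m ∧ H.card = m ∧
      (∀ x ∈ L, g x < p) ∧ ∀ x ∈ H, p ≤ g x := by
  classical
  have hex : ∃ p, m ≤ (P.filter (fun x => g x < p)).card := by
    refine ⟨P.sup g + 1, ?_⟩
    rw [Finset.filter_true_of_mem (fun x hx => Nat.lt_succ_of_le (Finset.le_sup hx))]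
    omega
  have hp := Nat.find_spec hex
  have hmin := fun k => Nat.find_min (m := k) hex
  set p := Nat.find hex with hpd
  have hle : (P.filter (fun x => g x < p)).card ≤ m := by
    rcases Nat.eq_zero_or_pos p with h0 | h0
    · rw [h0]
      simp
    · have h1 : ¬ m ≤ (P.filter (fun x => g x < p - 1)).card := hmin (p - 1) (by omega)
      have h2 : P.filter (fun x => g x < p) ⊆
          P.filter (fun x => g x < p - 1) ∪ P.filter (fun x => g x = p - 1) := by
        intro x hx
        rw [mem_union, mem_filter, mem_filter]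
        rw [mem_filter] at hx
        rcases Nat.lt_or_ge (g x) (p - 1) with h3 | h3
        · exact Or.inl ⟨hx.1, h3⟩
        · exact Or.inr ⟨hx.1, by omega⟩
      have h3 : (P.filter (fun x => g x = p - 1)).card ≤ 1 := by
        refine Finset.card_le_one.2 fun a ha b hb => hg ?_
        rw [(mem_filter.1 ha).2, (mem_filter.1 hb).2]
      have h4 := (Finset.card_le_card h2).trans (Finset.card_union_le _ _)
      omega
  have hL : (P.filter (fun x => g x < p)).card = m := le_antisymm hle hp
  have hs := Finset.card_filter_add_card_filter_not (s := P) (fun x => g x < p)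
  refine ⟨P.filter (fun x => g x < p), P.filter (fun x => ¬ g x < p), p, filter_subset _ _,
    filter_subset _ _, hL, by omega, fun x hx => (mem_filter.1 hx).2,
    fun x hx => not_lt.1 (mem_filter.1 hx).2⟩

theorem card_Bl (c : ℕ) : (Bl c).card = 2 * 2 ^ c := by
  unfold Bl
  rw [Nat.card_Ico, pow_succ, pow_succ]
  omega

theorem main : S_HLF := by
  intro ψ
  have h1 : Function.Injective (fun x : ℕ => ψ (Sum.inl x)) := fun a b h =>
    Sum.inl_injective (ψ.injective h)
  have h2 : Function.Injective (fun x : ℕ => ψ (Sum.inr x)) := fun a b h =>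
    Sum.inr_injective (ψ.injective h)
  choose LQ HQ q a1 a2 a3 a4 a5 a6 using fun c => halves _ h1 (Bl c) (2 ^ c) (card_Bl c)
  choose LP HP p b1 b2 b3 b4 b5 b6 using fun c => halves _ h2 (Bl c) (2 ^ c) (card_Bl c)
  exact ⟨LQ, HQ, LP, HP, q, p, ⟨a1, a2, b1, b2, a3, a4, b3, b4, a5, a6, b5, b6⟩⟩

end Pool.Agent.J6H14.EW
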